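import Mathlib

namespace Pool.Agent.H.MP_a0f451_an

open MeasureTheory Filter Topology ComplexConjugate AddCircle

abbrev T := UnitAddCircle
noncomputable abbrev μ : Measure T := haarAddCircle

lemma nf (n : ℤ) (t : T) : ‖fourier n t‖ = 1 := by rw [fourier_apply, Circle.norm_coe]

lemma cint {F : T → ℂ} (h : Continuous F) : Integrable F μ :=
  h.integrable_of_hasCompactSupport (HasCompactSupport.of_compactSpace F)

lemma coef_mul {F G : T → ℂ} (hF : Continuous F) {a : ℤ → ℂ} (ha : Summable fun k => ‖a k‖)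
    (h : ∀ t, HasSum (fun k => a k * fourier k t) (G t)) (n : ℤ) :
    HasSum (fun k => a k * fourierCoeff F (n - k)) (fourierCoeff (fun t => F t * G t) n) := by
  have := hasSum_integral_of_summable_integral_norm (μ := μ)
    (F := fun k t => a k * (fourier (-(n - k)) t • F t)) (fun k => cint (by fun_prop))
    (by simpa [nf, integral_const_mul] using ha.mul_right _)
  simp only [integral_const_mul] at this
  suffices e : fourierCoeff (fun t => F t * G t) n =
      ∫ t, ∑' k, a k * (fourier (-(n - k)) t • F t) ∂μ from e ▸ this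
  refine integral_congr_ae (.of_forall fun t => ?_)
  have := (h t).mul_left (fourier (-n) t * F t)
  simp only [smul_eq_mul]
  rw [← mul_assoc, ← this.tsum_eq]
  refine tsum_congr fun k => ?_
  rw [neg_sub, sub_eq_neg_add, fourier_add]; ring

lemma coef {G : T → ℂ} {a : ℤ → ℂ} (ha : Summable fun k => ‖a k‖)
    (h : ∀ t, HasSum (fun k => a k * fourier k t) (G t)) (n : ℤ) : fourierCoeff G n = a n := by
  have := coef_mul (F := fourier 0) (by fun_prop) ha h n
  simp only [fourierCoeff_fourier, fourier_zero, one_mul] at this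
  rw [← this.tsum_eq, tsum_eq_single n fun k hk => by simp [sub_eq_zero, hk.symm]]
  simp

lemma cont {G : T → ℂ} {a : ℤ → ℂ} (ha : Summable fun k => ‖a k‖)
    (h : ∀ t, HasSum (fun k => a k * fourier k t) (G t)) : Continuous G := by
  rw [show G = fun t => ∑' k, a k * fourier k t from funext fun t => (h t).tsum_eq.symm]
  exact continuous_tsum (fun k => by fun_prop) ha fun k t => by simp

lemma shift (K : T → ℂ) (α : T) (n : ℤ) :
    fourierCoeff (fun t => K (t - α)) n = fourier (-n) α * fourierCoeff K n := by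
  unfold fourierCoeff
  rw [← integral_add_right_eq_self _ α, ← integral_const_mul]
  refine integral_congr_ae (.of_forall fun t => ?_)
  simp only [fourier_apply, smul_add, toCircle_add, add_sub_cancel_right, smul_eq_mul,
    Circle.coe_mul]
  ring

lemma sq_le {U : Lp ℂ 2 μ} {B : ℝ} (h : ∀ᵐ t ∂μ, ‖U t‖ ≤ B) (s : Finset ℤ) :
    ∑ n ∈ s, ‖fourierCoeff U n‖ ^ 2 ≤ B ^ 2 := by
  refine (sum_le_hasSum s (fun _ _ => by positivity) (hasSum_sq_fourierCoeff U)).trans
    ((le_abs_self _).trans ?_)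
  simpa using norm_integral_le_of_norm_le_const (μ := μ) (f := fun t => ‖U t‖ ^ 2)
    (C := B ^ 2) (h.mono fun t ht => by rw [norm_pow, norm_norm]; gcongr)

lemma pars (U φ : Lp ℂ 2 μ) :
    ‖U - φ‖ ^ 2 = ∑' n, ‖fourierCoeff U n - fourierCoeff φ n‖ ^ 2 := by
  have : HasSum (fun i => ‖fourierBasis.repr (U - φ) i‖ ^ 2)
      (‖fourierBasis.repr (U - φ)‖ ^ 2) := by
    apply_mod_cast lp.hasSum_norm ?_ (fourierBasis.repr (U - φ))
    simp
  rw [LinearIsometryEquiv.norm_map] at this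
  rw [← this.tsum_eq]
  refine tsum_congr fun n => ?_
  rw [map_sub, lp.coeFn_sub, Pi.sub_apply, fourierBasis_repr, fourierBasis_repr]

lemma rf {ν : ℤ → ℂ} (s : Summable fun n => ‖ν n‖ ^ 2) :
    ∃ φ : Lp ℂ 2 μ, ∀ n, fourierCoeff φ n = ν n :=
  ⟨fourierBasis.repr.symm ⟨ν, memℓp_gen (by simpa using s)⟩, fun n => by
    rw [← fourierBasis_repr]; simp⟩

lemma conv {U : ℕ → Lp ℂ 2 μ} {φ : Lp ℂ 2 μ} {ν : ℤ → ℂ} {l : ℕ → ℤ → ℂ}
    (hU : ∀ j n, fourierCoeff (U j) n = l j n * ν n) (hφ : ∀ n, fourierCoeff φ n = ν n)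
    (s : Summable fun n => ‖ν n‖ ^ 2)
    (h2 : ∀ j n, ‖l j n‖ ≤ 3) (h3 : ∀ n, Tendsto (l · n) atTop (𝓝 1)) :
    Tendsto U atTop (𝓝 φ) := by
  rw [tendsto_iff_norm_sub_tendsto_zero]
  have e : ∀ j, ∑' n, ‖(l j n - 1) * ν n‖ ^ 2 = ‖U j - φ‖ ^ 2 := fun j => by
    simp only [pars, hU, hφ, sub_one_mul]
  have := tendsto_tsum_of_dominated_convergence (𝓕 := atTop) (g := fun _ => (0 : ℝ))
    (f := fun j n => ‖(l j n - 1) * ν n‖ ^ 2) (s.mul_left (4 ^ 2)) (fun n => by
      simpa using (((h3 n).sub_const 1).mul_const (ν n)).norm.pow 2)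
    (.of_forall fun j n => by
      rw [norm_pow, norm_norm, norm_mul, mul_pow]
      gcongr
      exact (norm_sub_le _ _).trans (by rw [norm_one]; linarith [h2 j n]))
  simp only [e, tsum_zero] at this
  simpa using this.sqrt

lemma top {U : ℕ → Lp ℂ 2 μ} {φ : Lp ℂ 2 μ} {B : ℝ} (h : ∀ j, ∀ᵐ t ∂μ, ‖U j t‖ ≤ B)
    (t : Tendsto U atTop (𝓝 φ)) : MemLp φ ⊤ μ :=
  ⟨Lp.aestronglyMeasurable φ, (eLpNorm_le_of_tendstoInMeasure (C := ENNReal.ofReal B)
    (f := fun j => U j) (.of_forall fun j => by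
      rw [eLpNorm_exponent_top]
      exact eLpNormEssSup_le_of_ae_bound (h j)) (tendstoInMeasure_of_tendsto_Lp t)
    fun j => Lp.aestronglyMeasurable _).trans_lt ENNReal.ofReal_lt_top⟩

lemma lim {u : ℕ → T → ℂ} (hu : ∀ j, Continuous (u j)) {B : ℝ} (hB : ∀ j t, ‖u j t‖ ≤ B)
    {ν : ℤ → ℂ} {l : ℕ → ℤ → ℂ} (h1 : ∀ j n, fourierCoeff (u j) n = l j n * ν n)
    (h2 : ∀ j n, ‖l j n‖ ≤ 3) (h3 : ∀ n, Tendsto (l · n) atTop (𝓝 1)) :
    ∃ φ : Lp ℂ 2 μ, MemLp φ ⊤ μ ∧ ∀ n, fourierCoeff φ n = ν n := by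
  have mem : ∀ j, MemLp (u j) 2 μ := fun j =>
    .of_bound (hu j).aestronglyMeasurable B (.of_forall (hB j))
  obtain ⟨U, hU⟩ : ∃ U : ℕ → Lp ℂ 2 μ, ∀ j, U j =ᵐ[μ] u j :=
    ⟨fun j => (mem j).toLp _, fun j => (mem j).coeFn_toLp⟩
  have hU' : ∀ j n, fourierCoeff (U j) n = l j n * ν n := fun j n => by
    rw [fourierCoeff_congr_ae (hU j), h1]
  have b : ∀ j, ∀ᵐ t ∂μ, ‖U j t‖ ≤ B := fun j => (hU j).mono fun t ht => by rw [ht]; exact hB j t
  have s : Summable fun n => ‖ν n‖ ^ 2 := summable_of_sum_le (c := B ^ 2) (fun n => by positivity)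
    fun s => by
      have t : Tendsto (fun j => ∑ n ∈ s, ‖l j n * ν n‖ ^ 2) atTop (𝓝 (∑ n ∈ s, ‖1 * ν n‖ ^ 2)) :=
        tendsto_finsetSum _ fun n _ => ((h3 n).mul_const _).norm.pow 2
      simp only [one_mul] at t
      refine le_of_tendsto' t fun j => ?_
      simpa only [hU'] using sq_le (b j) s
  obtain ⟨φ, hφ⟩ := rf s
  exact ⟨φ, top b (conv hU' hφ s h2 h3), hφ⟩

lemma pair (φ : Lp ℂ 2 μ) (g : C(T, ℂ)) :
    HasSum (fun n => fourierCoeff g n * fourierCoeff φ (-n)) (∫ t, g t * φ t ∂μ) := by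
  have hs := (Lp.memLp φ).star
  have key : ∀ x : Lp ℂ 2 μ, innerSL ℂ (hs.toLp _) x = ∫ t, x t * φ t ∂μ := fun x => by
    rw [innerSL_apply_apply, L2.inner_def]
    exact integral_congr_ae (hs.coeFn_toLp.mono fun t ht => by simp [ht])
  have := (innerSL ℂ (hs.toLp _)).hasSum
    (hasSum_fourier_series_L2 (ContinuousMap.toLp (E := ℂ) 2 μ ℂ g))
  simp only [map_smul, fourierCoeff_toLp, smul_eq_mul] at this
  simp only [key] at this
  have e1 : ∀ n, ∫ t, (fourierLp 2 n : Lp ℂ 2 μ) t * φ t ∂μ = fourierCoeff φ (-n) := fun n =>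
    integral_congr_ae ((coeFn_fourierLp 2 n).mono fun t ht => by simp only [ht, neg_neg, smul_eq_mul])
  have e2 : ∫ t, ContinuousMap.toLp (E := ℂ) 2 μ ℂ g t * φ t ∂μ = ∫ t, g t * φ t ∂μ :=
    integral_congr_ae ((ContinuousMap.coeFn_toLp (p := 2) μ (𝕜 := ℂ) g).mono
      fun t ht => by simp only [ht])
  simpa only [e1, e2] using this

lemma fp (n : ℕ) (t : T) : fourier n t = fourier 1 t ^ n := by
  induction n with
  | zero => simp
  | succ n ih => rw [Nat.cast_succ, fourier_add, ih, pow_succ]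

lemma two {b : ℕ → ℝ} {t : T} {X : ℂ} (h : HasSum (fun n => b n * fourier 1 t ^ n) X) :
    HasSum (fun n : ℤ => (b n.natAbs : ℂ) * fourier n t) (2 * X.re - b 0 : ℝ) := by
  have := HasSum.of_nat_of_neg (f := fun n : ℤ => (b n.natAbs : ℂ) * fourier n t)
    (by simpa only [Int.natAbs_natCast, fp] using h)
    (by simpa only [Int.natAbs_neg, Int.natAbs_natCast, fourier_neg, fp, map_mul,
      Complex.conj_ofReal, Complex.star_def, star_mul'] using h.star)
  rw [Complex.add_conj] at this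
  simpa using this

lemma two' {b : ℕ → ℝ} {x : ℝ} (h : HasSum b x) :
    HasSum (fun n : ℤ => b n.natAbs) (2 * x - b 0) := by
  have := HasSum.of_nat_of_neg (f := fun n : ℤ => b n.natAbs) (by simpa using h) (by simpa using h)
  simpa [two_mul] using this

noncomputable def P (r : ℝ) (t : T) : ℝ := (1 - r ^ 2) / ‖fourier 1 t - r‖ ^ 2

noncomputable def b (r c : ℝ) (n : ℕ) : ℝ := r ^ n / n + if n = 0 then c else 0

variable {r : ℝ}

lemma nsq (r : ℝ) (t : T) : ‖1 - r * fourier 1 t‖ = ‖fourier 1 t - r‖ := by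
  have : conj (fourier 1 t) * fourier 1 t = 1 := by
    rw [mul_comm, Complex.mul_conj', nf]; simp
  have e : 1 - r * fourier 1 t = fourier 1 t * conj (fourier 1 t - r) := by
    simp only [map_sub, Complex.conj_ofReal]; linear_combination -this
  rw [e, norm_mul, nf, one_mul, Complex.norm_conj]

lemma lt (h0 : 0 ≤ r) (h1 : r < 1) (t : T) : ‖r * fourier 1 t‖ < 1 := by
  rwa [norm_mul, nf, mul_one, Complex.norm_of_nonneg h0]

lemma pos (h0 : 0 ≤ r) (h1 : r < 1) (t : T) : 0 < ‖1 - r * fourier 1 t‖ := by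
  have := norm_sub_norm_le 1 (r * fourier 1 t)
  rw [norm_one] at this
  linarith [lt h0 h1 t]

lemma sP (h0 : 0 ≤ r) (h1 : r < 1) (t : T) :
    HasSum (fun n : ℤ => (r ^ n.natAbs : ℝ) * fourier n t) (P r t) := by
  have := two (b := fun n => r ^ n) (t := t) (by
    simpa only [mul_pow, Complex.ofReal_pow] using hasSum_geometric_of_norm_lt_one (lt h0 h1 t))
  convert this using 2
  have p := pos h0 h1 t
  have q := nf 1 t
  rw [P, ← nsq, Complex.inv_re, Complex.normSq_eq_norm_sq]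
  field_simp
  rw [← sq_eq_sq₀ (norm_nonneg _) zero_le_one, Complex.sq_norm, Complex.normSq_apply] at q
  rw [Complex.sq_norm, Complex.normSq_apply]
  simp only [Complex.sub_re, Complex.one_re, Complex.re_ofReal_mul, Complex.sub_im,
    Complex.one_im, Complex.im_ofReal_mul]
  linear_combination (r ^ 2) * q

lemma sL (h0 : 0 ≤ r) (h1 : r < 1) (t : T) :
    HasSum (fun n : ℤ => (b r (Real.log (1 - r ^ 2)) n.natAbs : ℝ) * fourier n t)
      (Real.log (P r t)) := by
  have := two (b := b r (Real.log (1 - r ^ 2))) (t := t) (by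
    convert (Complex.hasSum_taylorSeries_neg_log (lt h0 h1 t)).add
      (hasSum_ite_eq 0 (Real.log (1 - r ^ 2) : ℂ)) using 2 with n
    by_cases h : n = 0 <;> simp [b, h, mul_pow]
    ring)
  convert this using 2
  rw [P, ← nsq, Real.log_div (by nlinarith) (pow_pos (pos h0 h1 t) 2).ne', Real.log_pow]
  simp [b, Complex.log_re]
  ring

lemma sb (h0 : 0 ≤ r) (h1 : r < 1) (c : ℝ) :
    HasSum (fun n : ℤ => b r c n.natAbs) (2 * -Real.log (1 - r) + c) := by
  have h : HasSum (fun n : ℕ => r ^ n / n) (-Real.log (1 - r)) := by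
    rw [← hasSum_nat_add_iff' 1]
    simpa using Real.hasSum_pow_div_log_of_abs_lt_one (x := r) (by rwa [abs_of_nonneg h0])
  convert two' (b := b r c) (h.add (hasSum_ite_eq 0 c)) using 1
  simp [b]; ring

lemma ab (h0 : 0 ≤ r) (c : ℝ) (n : ℕ) : |b r c n| = b r |c| n := by
  by_cases h : n = 0 <;> simp [b, h, abs_div, abs_of_nonneg h0]

lemma mb (r c : ℝ) (n : ℕ) : b r c n * r ^ n = b (r ^ 2) c n := by
  by_cases h : n = 0 <;> simp [b, h]
  ring

lemma lb (h0 : 0 ≤ r) (c : ℝ) (n : ℕ) : |b r c n| ≤ (1 + |c|) * r ^ n := by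
  rw [ab h0]
  by_cases h : n = 0
  · simp [b, h]
  · simp only [b, h, if_false, add_zero]
    exact (div_le_self (by positivity) (by exact_mod_cast Nat.pos_of_ne_zero h)).trans
      (le_mul_of_one_le_left (by positivity) (by simp))

noncomputable def K (r : ℝ) (t : T) : ℂ := (P r t * Real.log (P r t) : ℝ)

lemma geo (h0 : 0 ≤ r) (h1 : r < 1) : Summable fun n : ℤ => r ^ n.natAbs :=
  (two' (hasSum_geometric_of_lt_one h0 h1)).summable

lemma sK (h0 : 0 ≤ r) (h1 : r < 1) (n : ℤ) : ∃ c : ℝ, fourierCoeff (K r) n = c ∧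
    HasSum (fun k : ℤ => b r (Real.log (1 - r ^ 2)) k.natAbs * r ^ (n - k).natAbs) c := by
  have g : Summable fun n : ℤ => ‖((r ^ n.natAbs : ℝ) : ℂ)‖ := by
    simpa [abs_of_nonneg h0] using geo h0 h1
  have := coef_mul (cont g (sP h0 h1)) (by
    simpa only [Complex.norm_real, Real.norm_eq_abs, ab h0] using (sb h0 h1 _).summable)
    (sL h0 h1) n
  simp only [coef g (sP h0 h1), ← Complex.ofReal_mul] at this
  have s := (Complex.hasSum_re this).summable
  simp only [Complex.ofReal_re] at s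
  exact ⟨_, this.unique (Complex.hasSum_ofReal.2 s.hasSum), s.hasSum⟩

lemma pd (h0 : 0 ≤ r) (h1 : r < 1) {i j : ℕ} (h : i ≤ j) : |r ^ j - r ^ i| ≤ (j - i) * (1 - r) := by
  obtain ⟨k, rfl⟩ := Nat.exists_eq_add_of_le h
  have := one_add_mul_sub_le_pow (a := r) (by linarith) k
  have p : r ^ i ≤ 1 := pow_le_one₀ h0 h1.le
  have q : r ^ k ≤ 1 := pow_le_one₀ h0 h1.le
  have := pow_nonneg h0 i
  rw [abs_sub_comm, pow_add, abs_of_nonneg (by nlinarith)]
  push_cast
  nlinarith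

lemma est (h0 : 0 ≤ r) (h1 : r < 1) : ∃ s A : ℝ, 0 ≤ s ∧ s < 1 ∧ ∀ n,
    ‖fourierCoeff (K r) n‖ ≤ A * s ^ n.natAbs ∧
    ‖fourierCoeff (K r) n‖ ≤ 3 * -Real.log (1 - r) ∧
    ‖fourierCoeff (K r) n - (-Real.log (1 - r) : ℝ)‖ ≤
      1 + n.natAbs * (1 - r) * (3 * -Real.log (1 - r)) := by
  obtain ⟨s, s0, rfl⟩ : ∃ s, 0 ≤ s ∧ s ^ 2 = r := ⟨√r, Real.sqrt_nonneg _, Real.sq_sqrt h0⟩
  have s1 : s < 1 := by nlinarith
  generalize hr : s ^ 2 = r at *
  obtain ⟨L, hL⟩ : ∃ L, L = Real.log (1 - r ^ 2) := ⟨_, rfl⟩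
  have e : L = Real.log (1 - r) + Real.log (1 + r) := by
    rw [hL, ← Real.log_mul (by linarith) (by linarith)]; ring_nf
  have l0 : L ≤ 0 := hL ▸ Real.log_nonpos (by nlinarith) (by nlinarith)
  have l1 := Real.log_nonneg (x := 1 + r) (by linarith)
  have l2 := Real.log_le_sub_one_of_pos (x := 1 + r) (by linarith)
  have S := sb h0 h1 |L|
  simp only [← ab h0] at S
  rw [abs_of_nonpos l0] at S
  refine ⟨s, (1 + |L|) * ∑' k : ℤ, s ^ k.natAbs, s0, s1, fun n => ?_⟩
  obtain ⟨c, c1, c2⟩ := sK h0 h1 n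
  rw [c1, ← Complex.ofReal_sub, Complex.norm_real, Complex.norm_real]
  rw [← hL] at c2
  refine ⟨c2.norm_le_of_bounded (((geo s0 s1).hasSum.mul_left _).mul_right _) fun k => ?_,
    (c2.norm_le_of_bounded S fun k => ?_).trans (by linarith), ?_⟩
  · rw [norm_mul, Real.norm_eq_abs, Real.norm_of_nonneg (by positivity)]
    refine (mul_le_mul_of_nonneg_right (lb h0 _ _) (by positivity)).trans ?_
    rw [mul_assoc, mul_assoc, ← hr, ← pow_mul, ← pow_mul, ← pow_add, ← pow_add]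
    exact mul_le_mul_of_nonneg_left (pow_le_pow_of_le_one s0 s1.le (by omega)) (by positivity)
  · rw [norm_mul, Real.norm_eq_abs, Real.norm_of_nonneg (by positivity)]
    exact mul_le_of_le_one_right (abs_nonneg _) (pow_le_one₀ h0 h1.le)
  · have S2 := sb (r := r ^ 2) (by positivity) (by nlinarith) L
    simp only [← mb, ← hL] at S2
    have := (c2.sub S2).norm_le_of_bounded (S.mul_left (n.natAbs * (1 - r))) fun k => by
      rw [← mul_sub, norm_mul, mul_comm]
      gcongr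
      · rcases le_total k.natAbs (n - k).natAbs with h | h
        · refine (pd h0 h1 h).trans ?_
          gcongr
          exact_mod_cast (by omega : ((n - k).natAbs : ℤ) - k.natAbs ≤ n.natAbs)
        · rw [norm_sub_rev]
          refine (pd h0 h1 h).trans ?_
          gcongr
          exact_mod_cast (by omega : (k.natAbs : ℤ) - (n - k).natAbs ≤ n.natAbs)
      · rfl
    have p : (0 : ℝ) ≤ n.natAbs * (1 - r) := by have := sub_pos.2 h1; positivity
    have := this.trans (mul_le_mul_of_nonneg_left (by linarith : _ ≤ 3 * -Real.log (1 - r)) p)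
    rw [Real.norm_eq_abs, abs_le] at this ⊢
    constructor <;> linarith [this.1, this.2]

end Pool.Agent.H.MP_a0f451_an
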